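import Mathlib
import Pool.Agent.MP_995973_gt.Final

/-! A knot whose Kauffman polynomial has minimal degree above one minus the Euler characteristic
of a Seifert surface. -/

set_option autoImplicit false

open LaurentPolynomial Pool.Agent.MP_995973_gt

theorem Pool.Agent.Results.MP_995973_gt.Counterexample.result :
    (∃ L, IsKauffman L) ∧
    ∃ (w : List (Kind × ℕ)) (S : Finset (ℕ × ℕ × ℕ)) (p : ℕ → Fin 3 → ℝ),
      IsDiagram w ∧ IsSurface S p ∧
      (∀ x y, ((x, y) ∈ bdry S p ∨ (y, x) ∈ bdry S p) ↔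
        ((x, y) ∈ segs 0 0 w ∨ (y, x) ∈ segs 0 0 w)) ∧
      ∀ L, IsKauffman L → ∃ m : ℤ,
        (invert (T (-writhe (bdry S p) 0 w) * L w)).coeff.support.min = (m : WithTop ℤ) ∧
        1 - euler S < m := by
  refine ⟨⟨Lam, isKauffman_Lam⟩, D0, Tl.toFinset, pos, diagram_D0, surface_Tl.1, bdry_D0,
    fun L hL => ⟨5, ?_, by rw [surface_Tl.2]; norm_num⟩⟩
  rw [writhe_D0, unique_Lam hL diagram_D0]
  exact mindeg_D0
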